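import Pool.Agent.Y549.SP.BAD3
import Pool.Agent.Y549.SP.BL
import Pool.Agent.Y549.SP.LS3
import Pool.Agent.Y549.SP.PJ
import Pool.Agent.Y549.SP.NUM2
import Pool.Agent.Y549.SP.SPL
import Pool.Agent.Y549.SP.CNT2
import Pool.Agent.Y549.SP.Fin2

set_option autoImplicit false

/-! The untwisted counting theorem `S_CNT2` of the project `Y549.SP`: the statement `S_BAD2` is the
case `D = -1` of `S_BAD3`. -/

namespace Pool.Agent.Q122.SP

open Finset Pool.Agent.Y549.SP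

theorem sd_neg_one (Q : Set ℕ) (m y : ℕ) : sd Q (-1) m y = ss Q m y := by
  unfold sd ss
  refine sum_congr rfl fun p _ => ?_
  rw [neg_one_mul]

theorem bad2 : S_BAD2 := by
  intro A ρ κ η ε hρ hρ1 hA hκ hκ1 hη hη1 hε
  obtain ⟨c, K, hc, hK, h⟩ := BAD3.main BL.main (LS3.main PJ.main) NUM2.main
    A ρ κ η ε hρ hρ1 hA hκ hκ1 hη hη1 hε
  refine ⟨c, K, hc, hK, fun Q X y hX h1 h2 h3 => ?_⟩
  have := h (-1) Q X y hX h1 h2 h3
  simpa only [sd_neg_one] using this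

theorem cnt2 : S_CNT2 := CNT2.main bad2 SPL.main

end Pool.Agent.Q122.SP
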